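import Pool.Agent.Q81.TF.Stm

open Set MeasureTheory Filter Topology

namespace Pool.Agent.Q186.TF

open Pool.Agent.Q81.TF

/-- integrals of functions which vanish above a threshold -/
theorem thr {g G h : ℝ → ℝ} {p a c K : ℝ} (hpa : p ≤ a) (cg : ContinuousOn g (Icc p a))
    (g0 : ∀ x ∈ Icc p a, 0 ≤ g x) (hG : ∀ x ∈ Icc p a, G x = G p + ∫ y in p..x, g y)
    (hc : G p ≤ c) (hK : 0 ≤ K) (ch : ContinuousOn h (Icc p a))
    (h1 : ∀ x ∈ Icc p a, G x ≤ c → |h x| ≤ K * g x) (h2 : ∀ x ∈ Icc p a, c ≤ G x → h x = 0) :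
    |∫ x in p..a, h x| ≤ K * (c - G p) := by
  have ig : ∀ x ∈ Icc p a, ∀ y ∈ Icc p a, IntervalIntegrable g volume x y := by
    intro x hx y hy
    apply ContinuousOn.intervalIntegrable
    exact cg.mono (uIcc_subset_Icc hx hy)
  have ih : ∀ x ∈ Icc p a, ∀ y ∈ Icc p a, IntervalIntegrable h volume x y := by
    intro x hx y hy
    apply ContinuousOn.intervalIntegrable
    exact ch.mono (uIcc_subset_Icc hx hy)
  have hp : p ∈ Icc p a := ⟨le_rfl, hpa⟩
  have ha : a ∈ Icc p a := ⟨hpa, le_rfl⟩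
  have mono : ∀ x ∈ Icc p a, ∀ y ∈ Icc p a, x ≤ y → G x ≤ G y := by
    intro x hx y hy hxy
    rw [hG x hx, hG y hy, ← intervalIntegral.integral_add_adjacent_intervals (ig p hp x hx)
      (ig x hx y hy)]
    have : 0 ≤ ∫ u in x..y, g u := intervalIntegral.integral_nonneg hxy
      (fun u hu => g0 u ⟨hx.1.trans hu.1, hu.2.trans hy.2⟩)
    linarith
  have key : ∀ q ∈ Icc p a, G q ≤ c → |∫ x in p..q, h x| ≤ K * (G q - G p) := by
    intro q hq hqc
    have e1 : |∫ x in p..q, h x| ≤ ∫ x in p..q, |h x| :=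
      intervalIntegral.abs_integral_le_integral_abs hq.1
    have e2 : ∫ x in p..q, |h x| ≤ ∫ x in p..q, K * g x := by
      apply intervalIntegral.integral_mono_on hq.1 (ih p hp q hq).abs ((ig p hp q hq).const_mul K)
      intro x hx
      have hx' : x ∈ Icc p a := ⟨hx.1, hx.2.trans hq.2⟩
      exact h1 x hx' ((mono x hx' q hq hx.2).trans hqc)
    have e3 : ∫ x in p..q, K * g x = K * ∫ x in p..q, g x := intervalIntegral.integral_const_mul _ _
    have e4 := hG q hq
    have e5 : ∫ x in p..q, g x = G q - G p := by linarith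
    rw [e3, e5] at e2
    exact e1.trans e2
  rcases le_total (G a) c with hca | hca
  · exact (key a ha hca).trans (mul_le_mul_of_nonneg_left (by linarith) hK)
  · have cG : ContinuousOn G (Icc p a) := by
      have h3 : IntegrableOn g (uIcc p a) := by
        rw [uIcc_of_le hpa]
        exact cg.integrableOn_Icc
      have h4 := intervalIntegral.continuousOn_primitive_interval h3
      rw [uIcc_of_le hpa] at h4
      exact (continuousOn_const.add h4).congr hG
    obtain ⟨q, hq, hqc⟩ := intermediate_value_Icc hpa cG ⟨hc, hca⟩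
    have e1 := key q hq hqc.le
    have e2 : ∫ x in q..a, h x = 0 := by
      have : ∫ x in q..a, h x = ∫ _x in q..a, (0 : ℝ) := by
        apply intervalIntegral.integral_congr
        intro x hx
        rw [uIcc_of_le hq.2] at hx
        exact h2 x ⟨hq.1.trans hx.1, hx.2⟩ (hqc.symm.le.trans
          (mono q hq x ⟨hq.1.trans hx.1, hx.2⟩ hx.1))
      rw [this, intervalIntegral.integral_zero]
    rw [← intervalIntegral.integral_add_adjacent_intervals (ih p hp q hq) (ih q hq a ha), e2,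
      add_zero]
    rw [hqc] at e1
    exact e1

theorem zeta_one {b : ℝ} {ζ ζ1 : ℝ → ℝ} (Z : ZCut b ζ ζ1) (hb : 0 < b) (v : ℝ) :
    |ζ1 v| ≤ 12 / b * Real.sqrt (ζ v) := by
  obtain ⟨h0, h1⟩ := Z.range v
  have h4 := Z.four v
  have e1 : (ζ1 v ^ 2 * b ^ 2) ^ 2 ≤ (144 * ζ v) ^ 2 := by
    calc (ζ1 v ^ 2 * b ^ 2) ^ 2 = ζ1 v ^ 4 * b ^ 4 := by ring
      _ ≤ 20736 * ζ v ^ 3 := h4
      _ ≤ 20736 * ζ v ^ 2 := by
          have : ζ v ^ 3 ≤ ζ v ^ 2 := pow_le_pow_of_le_one h0 h1 (by norm_num)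
          linarith
      _ = (144 * ζ v) ^ 2 := by ring
  have e2 : ζ1 v ^ 2 * b ^ 2 ≤ 144 * ζ v := by
    have := abs_le_of_sq_le_sq' e1 (by positivity)
    exact this.2
  have e3 : |ζ1 v| * b ≤ 12 * Real.sqrt (ζ v) := by
    apply abs_le_of_sq_le_sq' _ (by positivity) |>.2
    calc (|ζ1 v| * b) ^ 2 = ζ1 v ^ 2 * b ^ 2 := by rw [mul_pow, sq_abs]
      _ ≤ 144 * ζ v := e2
      _ = (12 * Real.sqrt (ζ v)) ^ 2 := by
          rw [mul_pow, Real.sq_sqrt h0]
          norm_num
  rw [div_mul_eq_mul_div, le_div_iff₀ hb]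
  exact e3

theorem t_SL3 : S_SL3 := by
  intro n p a E b N H Y B Pm f f1 f2 f3 ft m R ζ ζ1 Fr w w1 hB S F hPm
  have hpa := S.P.le
  have hN0 : 0 < N := by linarith [S.hN]
  have hBN : 0 ≤ B / N := div_nonneg hB hN0.le
  obtain ⟨c0, c1, c2, c3, cG, cw⟩ := S.P.cont (le_refl p) (le_refl a)
  have hp : p ∈ Icc p a := ⟨le_rfl, hpa⟩
  have ha : a ∈ Icc p a := ⟨hpa, le_rfl⟩
  have cm : ContinuousOn m (Icc p a) := fun x hx => (S.dm x hx).continuousAt.continuousWithinAt
  have cz : Continuous ζ := continuous_iff_continuousAt.2 fun v => (S.Z.d0 v).continuousAt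
  have cz1 : Continuous ζ1 := S.Z.c1
  have cww : Continuous w := continuous_iff_continuousAt.2 fun v => (F.d1 v).continuousAt
  have czm : ContinuousOn (fun x => ζ (m x)) (Icc p a) := cz.comp_continuousOn cm
  have czm1 : ContinuousOn (fun x => ζ1 (m x)) (Icc p a) := cz1.comp_continuousOn cm
  have ck : ContinuousOn (fun y => ζ (m y) * f y ^ (2 - n)) (Icc p a) := czm.mul cw
  have k0 : ∀ x ∈ Icc p a, 0 ≤ ζ (m x) * f x ^ (2 - n) := fun x hx =>
    mul_nonneg (S.Z.range _).1 (Real.rpow_nonneg (S.P.pos x hx).le _)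
  have hRp : R p = 0 := by rw [S.hR p hp, intervalIntegral.integral_same]
  have cR : ContinuousOn R (Icc p a) := by
    have h3 : IntegrableOn (fun y => ζ (m y) * f y ^ (2 - n)) (uIcc p a) := by
      rw [uIcc_of_le hpa]
      exact ck.integrableOn_Icc
    have h4 := intervalIntegral.continuousOn_primitive_interval h3
    rw [uIcc_of_le hpa] at h4
    exact h4.congr S.hR
  have dR : ∀ x ∈ Ioo p a, HasDerivAt R (ζ (m x) * f x ^ (2 - n)) x := by
    intro x hx
    have hc : ContinuousAt (fun y => ζ (m y) * f y ^ (2 - n)) x :=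
      ck.continuousAt (Icc_mem_nhds hx.1 hx.2)
    have h3 : HasDerivAt (fun u => ∫ y in p..u, ζ (m y) * f y ^ (2 - n))
        (ζ (m x) * f x ^ (2 - n)) x := by
      apply intervalIntegral.integral_hasDerivAt_right
      · apply ContinuousOn.intervalIntegrable
        rw [uIcc_of_le hx.1.le]
        exact ck.mono (Icc_subset_Icc le_rfl hx.2.le)
      · apply ContinuousOn.stronglyMeasurableAtFilter (s := Ioo p a) isOpen_Ioo
        · exact ck.mono Ioo_subset_Icc_self
        · exact hx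
      · exact hc
    apply h3.congr_of_eventuallyEq
    filter_upwards [Icc_mem_nhds hx.1 hx.2] with u hu
    exact S.hR u hu
  have cwR : ContinuousOn (fun x => w (R x)) (Icc p a) := cww.comp_continuousOn cR
  have cwR1 : ContinuousOn (fun x => w1 (R x)) (Icc p a) := F.c2.comp_continuousOn cR
  -- the three integrands
  set A1 : ℝ → ℝ := fun x => w1 (R x) * (ζ (m x) * f x ^ (2 - n)) * (ζ (m x) * f1 x ^ 2) with hA1
  set A2 : ℝ → ℝ := fun x => w (R x) * (ζ1 (m x) * f x) * f1 x ^ 2 with hA2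
  set A3 : ℝ → ℝ := fun x => w (R x) * (ζ (m x) * (f1 x * f2 x)) with hA3
  have cA1 : ContinuousOn A1 (Icc p a) := (cwR1.mul ck).mul (czm.mul (c1.pow 2))
  have cA2 : ContinuousOn A2 (Icc p a) := (cwR.mul (czm1.mul c0)).mul (c1.pow 2)
  have cA3 : ContinuousOn A3 (Icc p a) := cwR.mul (czm.mul (c1.mul c2))
  have iA : ∀ {A : ℝ → ℝ}, ContinuousOn A (Icc p a) → IntervalIntegrable A volume p a := by
    intro A hA
    apply ContinuousOn.intervalIntegrable
    rwa [uIcc_of_le hpa]
  have hftc : ∫ x in p..a, (A1 x / 2 + A2 x / 2 + A3 x) =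
      w (R a) * (ζ (m a) * f1 a ^ 2) / 2 - w (R p) * (ζ (m p) * f1 p ^ 2) / 2 := by
    have h5 := intervalIntegral.integral_eq_sub_of_hasDerivAt_of_le
      (f := fun x => w (R x) * (ζ (m x) * f1 x ^ 2) / 2)
      (f' := fun x => A1 x / 2 + A2 x / 2 + A3 x) hpa
      ((cwR.mul (czm.mul (c1.pow 2))).div_const 2) ?_ ?_
    · exact h5
    · intro x hx
      have hx' : x ∈ Icc p a := Ioo_subset_Icc_self hx
      have e1 := (F.d1 (R x)).comp x (dR x hx)
      have e2 := (S.Z.d0 (m x)).comp x (S.dm x hx')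
      have e3 := (S.P.d1 x hx').pow 2
      have e4 := (e1.mul (e2.mul e3)).div_const 2
      refine HasDerivAt.congr_deriv e4 ?_
      simp only [hA1, hA2, hA3, Function.comp, Pi.mul_apply, Pi.pow_apply, Nat.cast_ofNat,
        pow_one, Nat.add_one_sub_one]
      ring
    · exact iA (((cA1.div_const 2).add (cA2.div_const 2)).add cA3)
  have hsplit : ∫ x in p..a, (A1 x / 2 + A2 x / 2 + A3 x) =
      (∫ x in p..a, A1 x) / 2 + (∫ x in p..a, A2 x) / 2 + ∫ x in p..a, A3 x := by
    rw [intervalIntegral.integral_add (((iA cA1).div_const 2).add ((iA cA2).div_const 2)) (iA cA3),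
      intervalIntegral.integral_add ((iA cA1).div_const 2) ((iA cA2).div_const 2),
      intervalIntegral.integral_div, intervalIntegral.integral_div]
  have hz0 : ζ (m p) = 0 := by
    rw [S.mp]
    exact (S.Z.lo b le_rfl).1
  -- first integral
  have hsq : ∀ v, 0 ≤ v → v ≤ 1 → v ≤ Real.sqrt v := by
    intro v h0 h1
    calc v = Real.sqrt (v ^ 2) := (Real.sqrt_sq h0).symm
      _ ≤ Real.sqrt v := Real.sqrt_le_sqrt (by nlinarith)
  have b1 : |∫ x in p..a, A1 x| ≤ (B / N ^ 2 * Y) * (2 * N - R p) := by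
    apply thr (g := fun y => ζ (m y) * f y ^ (2 - n)) (G := R) hpa ck k0
    · intro x hx
      rw [hRp, zero_add]
      exact S.hR x hx
    · rw [hRp]
      linarith
    · exact mul_nonneg (div_nonneg hB (by positivity)) S.hY0
    · exact cA1
    · intro x hx hR2
      simp only [hA1]
      rw [abs_mul, abs_mul, abs_of_nonneg (k0 x hx)]
      have e1 := F.w1B (R x)
      have e2 : |ζ (m x) * f1 x ^ 2| ≤ Y := by
        rw [abs_of_nonneg (mul_nonneg (S.Z.range _).1 (sq_nonneg _))]
        refine le_trans ?_ (S.hY x hx hR2)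
        exact mul_le_mul_of_nonneg_right (hsq _ (S.Z.range _).1 (S.Z.range _).2) (sq_nonneg _)
      calc |w1 (R x)| * (ζ (m x) * f x ^ (2 - n)) * |ζ (m x) * f1 x ^ 2| ≤
          (B / N ^ 2) * (ζ (m x) * f x ^ (2 - n)) * Y := by
            apply mul_le_mul _ e2 (abs_nonneg _)
            · exact mul_nonneg (div_nonneg hB (by positivity)) (k0 x hx)
            · exact mul_le_mul_of_nonneg_right e1 (k0 x hx)
        _ = B / N ^ 2 * Y * (ζ (m x) * f x ^ (2 - n)) := by ring
    · intro x _ hR2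
      simp only [hA1]
      rw [(F.hi (R x) hR2).2.2]
      ring
  have b2 : |∫ x in p..a, A2 x| ≤ (B / N * (12 / b) * Y) * (2 * b - m p) := by
    apply thr (g := f) (G := m) hpa c0 (fun x hx => (S.P.pos x hx).le)
    · intro x hx
      have h6 : ∫ y in p..x, f y = m x - m p := by
        apply intervalIntegral.integral_eq_sub_of_hasDerivAt
        · intro y hy
          rw [uIcc_of_le hx.1] at hy
          exact S.dm y ⟨hy.1, hy.2.trans hx.2⟩
        · apply ContinuousOn.intervalIntegrable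
          rw [uIcc_of_le hx.1]
          exact c0.mono (Icc_subset_Icc le_rfl hx.2)
      linarith
    · rw [S.mp]
      linarith [S.hb]
    · exact mul_nonneg (mul_nonneg hBN (div_nonneg (by norm_num) S.hb.le)) S.hY0
    · exact cA2
    · intro x hx _
      simp only [hA2]
      have hf := S.P.pos x hx
      rcases le_total (R x) (2 * N) with hR2 | hR2
      · rw [abs_mul, abs_mul, abs_mul, abs_of_pos hf, abs_of_nonneg (F.w0 _),
          abs_of_nonneg (sq_nonneg (f1 x))]
        have e1 := zeta_one S.Z S.hb (m x)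
        have e2 := S.hY x hx hR2
        calc w (R x) * (|ζ1 (m x)| * f x) * f1 x ^ 2 =
            w (R x) * f x * (|ζ1 (m x)| * f1 x ^ 2) := by ring
          _ ≤ w (R x) * f x * (12 / b * Real.sqrt (ζ (m x)) * f1 x ^ 2) := by
              apply mul_le_mul_of_nonneg_left
              · exact mul_le_mul_of_nonneg_right e1 (sq_nonneg _)
              · exact mul_nonneg (F.w0 _) hf.le
          _ = w (R x) * f x * (12 / b) * (Real.sqrt (ζ (m x)) * f1 x ^ 2) := by ring
          _ ≤ w (R x) * f x * (12 / b) * Y := by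
              apply mul_le_mul_of_nonneg_left e2
              exact mul_nonneg (mul_nonneg (F.w0 _) hf.le) (div_nonneg (by norm_num) S.hb.le)
          _ ≤ B / N * f x * (12 / b) * Y := by
              apply mul_le_mul_of_nonneg_right _ S.hY0
              apply mul_le_mul_of_nonneg_right _ (div_nonneg (by norm_num) S.hb.le)
              exact mul_le_mul_of_nonneg_right (F.wB _) hf.le
          _ = B / N * (12 / b) * Y * f x := by ring
      · rw [(F.hi (R x) hR2).2.1]
        rw [zero_mul, zero_mul, abs_zero]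
        exact mul_nonneg (mul_nonneg (mul_nonneg hBN (div_nonneg (by norm_num) S.hb.le)) S.hY0)
          hf.le
    · intro x _ hm2
      simp only [hA2]
      rw [(S.Z.hi (m x) hm2).2]
      ring
  rw [hRp] at b1
  rw [S.mp] at b2
  have b1' : |∫ x in p..a, A1 x| ≤ 2 * (B * Y) / N := by
    refine b1.trans (le_of_eq ?_)
    field_simp
    ring
  have b2' : |∫ x in p..a, A2 x| ≤ 12 * (B * Y) / N := by
    refine b2.trans (le_of_eq ?_)
    have := S.hb.ne'
    field_simp
    ring
  have b3 : w (R a) * (ζ (m a) * f1 a ^ 2) / 2 ≤ B * Pm ^ 2 / (2 * N) := by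
    have e1 : f1 a ^ 2 ≤ Pm ^ 2 := by
      rw [← sq_abs (f1 a)]
      exact pow_le_pow_left₀ (abs_nonneg _) hPm 2
    have e2 : ζ (m a) * f1 a ^ 2 ≤ Pm ^ 2 := by
      calc ζ (m a) * f1 a ^ 2 ≤ 1 * f1 a ^ 2 :=
            mul_le_mul_of_nonneg_right (S.Z.range _).2 (sq_nonneg _)
        _ ≤ Pm ^ 2 := by rw [one_mul]; exact e1
    have e3 : w (R a) * (ζ (m a) * f1 a ^ 2) ≤ B / N * Pm ^ 2 :=
      mul_le_mul (F.wB _) e2 (mul_nonneg (S.Z.range _).1 (sq_nonneg _)) hBN
    calc w (R a) * (ζ (m a) * f1 a ^ 2) / 2 ≤ B / N * Pm ^ 2 / 2 := by linarith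
      _ = B * Pm ^ 2 / (2 * N) := by
          field_simp
  rw [hsplit, hz0] at hftc
  have b4 := neg_le_of_abs_le b1'
  have b5 := neg_le_of_abs_le b2'
  have e6 : 2 * (B * Y) / N = 2 * (B * Y / N) := by ring
  have e7 : 12 * (B * Y) / N = 12 * (B * Y / N) := by ring
  have e8 : 7 * (B * Y) / N = 7 * (B * Y / N) := by ring
  rw [e6] at b4
  rw [e7] at b5
  rw [e8]
  have : w (R p) * (0 * f1 p ^ 2) / 2 = 0 := by ring
  rw [this] at hftc
  linarith

end Pool.Agent.Q186.TF
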